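import Pool.Agent.H65.ST.Fin

/-!
# MP_b0184e_gt: trees in spaces with a cocompact solvable group of isometries, and in extensions
-/

namespace Pool.Agent.Results.MP_b0184e_gt.SolvableIsometries

open Pool.Agent.H65.ST Pool.Agent.H67

/-- Let `X` be a proper geodesic metric space, `Γ` a group of isometries of `X` acting cocompactly,
and `N` a subgroup of `Γ` with a finite series of normal subgroups of `Γ` from `N` to the trivial
group in which every factor is solvable or locally elliptic. Suppose that `N = Γ` and `X` has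
exponential growth (rate larger than `c₀ ≥ 1`), or that `N` is generated by elements of bounded
displacement and the exponential growth rate of `X` is larger than that of `X / N`. Then the
binary tree embeds bi-Lipschitzly into `X`. -/
theorem result (X : Type*) [MetricSpace X] [ProperSpace X]
    (hgeo : ∀ x y : X, ∃ γ : ℝ → X, γ 0 = x ∧ γ (dist x y) = y ∧
        ∀ s ∈ Set.Icc (0 : ℝ) (dist x y), ∀ t ∈ Set.Icc (0 : ℝ) (dist x y),
          dist (γ s) (γ t) = |s - t|)
    (Γ : Subgroup (X ≃ᵢ X))
    (hco : ∃ K : Set X, IsCompact K ∧ ∀ x : X, ∃ g ∈ Γ, g x ∈ K)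
    (x₀ : X) (N : Subgroup ↥Γ) (hser : NormalSeries Γ x₀ N) (c₀ : ℝ) (hc₀ : 1 ≤ c₀)
    (hN : N = ⊤ ∨ (BoundedlyGenerated Γ x₀ N ∧ QuotientGrowthLE Γ x₀ N c₀))
    (hexp : GrowthGT X c₀) :
    BilipschitzTree X :=
  fin_normal hgeo Γ hco x₀ N hser c₀ hc₀ hN hexp

end Pool.Agent.Results.MP_b0184e_gt.SolvableIsometries
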