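import Pool.Agent.H67.Supram

/-!
# MP_b0184e_gt: which finitely generated groups contain a coarsely embedded binary tree?
-/

namespace Pool.Agent.Results.MP_b0184e_gt.SupramenableGroups

open Pool.Agent.H67

/-- For a group `G` generated by a finite set `S`, with the word metric of `S`, the following are
equivalent: the binary tree embeds coarsely into `G`; the binary tree embeds bi-Lipschitzly into
`G`; the group `G` is not supramenable. -/
theorem result (G : Type*) [Group G] (S : Set G) (hS : S.Finite)
    (hgen : Subgroup.closure S = ⊤) :
    List.TFAE [GraphCoarseTree (cayleyGraph S), GraphBilipschitzTree (cayleyGraph S),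
      ¬ Supramenable G] :=
  group_tfae hS hgen

end Pool.Agent.Results.MP_b0184e_gt.SupramenableGroups
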