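import Pool.Agent.H67.Limit

/-!
# MP_b0184e_gt: every cocompact geodesic space of exponential growth contains a bi-Lipschitz
embedded tree of branching number at least two
-/

namespace Pool.Agent.Results.MP_b0184e_gt.ThickTree

open Pool.Agent.H67

/-- Let `X` be a proper geodesic metric space of exponential growth whose isometry group acts
cocompactly. There are `d` and a unit flow `θ` on the rooted `d`-ary tree with
`θ w ≤ 2 ^ (-|w|)`, so that its support `T = {w | 0 < θ w}` has at least `2 ^ n` vertices on every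
level `n`, and a map `f` whose restriction to `T` is a bi-Lipschitz embedding of `T`, with its tree
metric, into `X`. -/
theorem result (X : Type*) [MetricSpace X] [ProperSpace X]
    (hgeo : ∀ x y : X, ∃ γ : ℝ → X, γ 0 = x ∧ γ (dist x y) = y ∧
        ∀ s ∈ Set.Icc (0 : ℝ) (dist x y), ∀ t ∈ Set.Icc (0 : ℝ) (dist x y),
          dist (γ s) (γ t) = |s - t|)
    (hco : ∃ K : Set X, IsCompact K ∧ ∀ x : X, ∃ g : X ≃ᵢ X, g x ∈ K)
    (hexp : ∃ x₀ : X, ∃ C : ℝ, 0 < C ∧ ∃ c : ℝ, 1 < c ∧ ∀ n : ℕ, ∃ S : Finset X,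
        (↑S : Set X) ⊆ Metric.closedBall x₀ (n : ℝ) ∧
        (∀ a ∈ S, ∀ b ∈ S, a ≠ b → 1 ≤ dist a b) ∧
        C * c ^ n ≤ (S.card : ℝ)) :
    ∃ (d : ℕ) (θ : List (Fin d) → ℝ), IsUnitFlow θ ∧ (∀ w, θ w ≤ (1 / 2) ^ w.length) ∧
      (∀ n : ℕ, 2 ^ n ≤ {w : List (Fin d) | w.length = n ∧ 0 < θ w}.ncard) ∧
      ∃ (f : List (Fin d) → X) (a L : ℝ), 0 < a ∧
        ∀ u v : List (Fin d), 0 < θ u → 0 < θ v →
          a * ((regTree d).dist u v : ℝ) ≤ dist (f u) (f v) ∧
          dist (f u) (f v) ≤ L * ((regTree d).dist u v : ℝ) := by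
  obtain ⟨d, θ, h1, h2, h3⟩ := exists_bilipschitz_flow hgeo hco hexp
  exact ⟨d, θ, h1, h2, level_count h1 h2, h3⟩

end Pool.Agent.Results.MP_b0184e_gt.ThickTree
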