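import Pool.Agent.H67.Cocompact

/-!
# MP_b0184e_gt: when does a cocompact geodesic space contain a coarsely embedded binary tree?
-/

namespace Pool.Agent.Results.MP_b0184e_gt.TreeCriterion

open Pool.Agent.H67

/-- For a proper geodesic metric space whose isometry group acts cocompactly the following are
equivalent: the binary tree embeds coarsely; it embeds quasi-isometrically; it embeds
bi-Lipschitzly; it has a regular map into the space; it has a Lipschitz map into the space with
bounded multiplicity on each level; the space has an expanding uniformly discrete subset. -/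
theorem result (X : Type*) [MetricSpace X] [ProperSpace X]
    (hgeo : ∀ x y : X, ∃ γ : ℝ → X, γ 0 = x ∧ γ (dist x y) = y ∧
        ∀ s ∈ Set.Icc (0 : ℝ) (dist x y), ∀ t ∈ Set.Icc (0 : ℝ) (dist x y),
          dist (γ s) (γ t) = |s - t|)
    (hco : ∃ K : Set X, IsCompact K ∧ ∀ x : X, ∃ g : X ≃ᵢ X, g x ∈ K) :
    List.TFAE [CoarseTree X, QuasiIsometricTree X, BilipschitzTree X, RegularTree X,
      LevelRegularTree X, ExpandingSubset X] :=
  tree_tfae (cover_of_cocompact hgeo hco)

end Pool.Agent.Results.MP_b0184e_gt.TreeCriterion
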